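import Pool.Agent.CPT.StmtsC

set_option autoImplicit false

namespace Pool.Agent.CPT.H92

open Pool.Agent.CPT

theorem abs_factor {τ N k : ℕ} (hk : k ≤ N) : |((τ : ℤ) - (k : ℤ))| ≤ ((τ + N : ℕ) : ℤ) := by
  rw [abs_le]
  push_cast
  constructor <;> omega

theorem summand {τ N j : ℕ} (hj : j < N) (p : ℤ) (β : ℕ) (hp : |p| ≤ 2 ^ β) :
    |((N - 1).choose j : ℤ) * ((∏ k ∈ Finset.range j, ((τ : ℤ) - (k : ℤ))) *
      ∏ k ∈ Finset.Ico (j + 1) N, ((k : ℤ) - (τ : ℤ))) * p| ≤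
      2 ^ N * ((τ + N : ℕ) : ℤ) ^ N * 2 ^ β := by
  have hW : (1 : ℤ) ≤ ((τ + N : ℕ) : ℤ) := by
    push_cast
    omega
  rw [abs_mul, abs_mul, abs_mul, Finset.abs_prod, Finset.abs_prod]
  have h1 : |(((N - 1).choose j : ℕ) : ℤ)| ≤ 2 ^ N := by
    rw [abs_of_nonneg (by positivity)]
    have h2 : (N - 1).choose j ≤ 2 ^ (N - 1) := Nat.choose_le_two_pow _ _
    have h3 : 2 ^ (N - 1) ≤ 2 ^ N := Nat.pow_le_pow_right (by norm_num) (by omega)
    exact_mod_cast h2.trans h3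
  have h2 : ∏ k ∈ Finset.range j, |((τ : ℤ) - (k : ℤ))| ≤ ((τ + N : ℕ) : ℤ) ^ j := by
    have h3 : ∏ k ∈ Finset.range j, |((τ : ℤ) - (k : ℤ))| ≤
        ∏ _k ∈ Finset.range j, ((τ + N : ℕ) : ℤ) := by
      apply Finset.prod_le_prod
      · intro k _
        exact abs_nonneg _
      · intro k hk
        rw [Finset.mem_range] at hk
        exact abs_factor (by omega)
    rw [Finset.prod_const, Finset.card_range] at h3
    exact h3
  have h3 : ∏ k ∈ Finset.Ico (j + 1) N, |((k : ℤ) - (τ : ℤ))| ≤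
      ((τ + N : ℕ) : ℤ) ^ (N - (j + 1)) := by
    have h3 : ∏ k ∈ Finset.Ico (j + 1) N, |((k : ℤ) - (τ : ℤ))| ≤
        ∏ _k ∈ Finset.Ico (j + 1) N, ((τ + N : ℕ) : ℤ) := by
      apply Finset.prod_le_prod
      · intro k _
        exact abs_nonneg _
      · intro k hk
        rw [Finset.mem_Ico] at hk
        rw [abs_sub_comm]
        exact abs_factor (by omega)
    rw [Finset.prod_const, Nat.card_Ico] at h3
    exact h3
  have h4 : (∏ k ∈ Finset.range j, |((τ : ℤ) - (k : ℤ))|) *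
      ∏ k ∈ Finset.Ico (j + 1) N, |((k : ℤ) - (τ : ℤ))| ≤ ((τ + N : ℕ) : ℤ) ^ N := by
    calc (∏ k ∈ Finset.range j, |((τ : ℤ) - (k : ℤ))|) *
          ∏ k ∈ Finset.Ico (j + 1) N, |((k : ℤ) - (τ : ℤ))|
        ≤ ((τ + N : ℕ) : ℤ) ^ j * ((τ + N : ℕ) : ℤ) ^ (N - (j + 1)) := by
          apply mul_le_mul h2 h3
          · exact Finset.prod_nonneg (fun _ _ => abs_nonneg _)
          · positivity
      _ = ((τ + N : ℕ) : ℤ) ^ (j + (N - (j + 1))) := by rw [pow_add]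
      _ ≤ ((τ + N : ℕ) : ℤ) ^ N := pow_le_pow_right₀ hW (by omega)
  apply mul_le_mul _ hp (abs_nonneg _) (by positivity)
  apply mul_le_mul h1 h4
  · exact mul_nonneg (Finset.prod_nonneg (fun _ _ => abs_nonneg _))
      (Finset.prod_nonneg (fun _ _ => abs_nonneg _))
  · positivity

theorem szc (hsiz : SizStmt) (hnmb : NmbStmt) : SzcStmt := by
  intro n s D τ i hτ hi
  obtain ⟨hmem, hN1, _⟩ := hnmb n s
  obtain ⟨H, hH⟩ : ∃ H, H = prs n s := ⟨_, rfl⟩
  rw [← hH] at hτ hN1 ⊢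
  obtain ⟨N, hN⟩ : ∃ N, N = H.length := ⟨_, rfl⟩
  rw [← hN] at hτ hN1 ⊢
  have hpt : ∀ j : Fin H.length,
      |pt ℤ (2 * s + 1) (H.get j).1 (H.get j).2 i| ≤ 2 ^ bits n s := by
    intro j
    have h1 : ((H.get j).1, (H.get j).2) ∈ prs n s := by
      rw [← hH]
      exact H.get_mem j
    obtain ⟨h2, h3⟩ := (hmem _ _).1 h1
    have h4 := hsiz n s _ i _ h2 hi h3
    have h5 : ((pt ℤ (2 * s + 1) (H.get j).1 (H.get j).2 i).natAbs : ℤ) ≤
        ((2 ^ bits n s : ℕ) : ℤ) := by exact_mod_cast h4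
    rw [Int.natCast_natAbs] at h5
    push_cast at h5
    exact h5
  have hsum : |crv H (τ : ℤ) i| ≤ (H.length : ℤ) *
      (2 ^ H.length * ((τ + H.length : ℕ) : ℤ) ^ H.length * 2 ^ bits n s) := by
    unfold crv
    refine (Finset.abs_sum_le_sum_abs _ _).trans ?_
    have h2 := Finset.sum_le_card_nsmul (Finset.univ : Finset (Fin H.length)) _ _
      (fun j _ => summand (τ := τ) (N := H.length) (j := (j : ℕ)) j.2 _ _ (hpt j))
    rw [Finset.card_univ, Fintype.card_fin, nsmul_eq_mul] at h2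
    exact h2
  rw [← hN] at hsum
  have hW : τ + N ≤ 2 ^ (D + N) := by
    have h1 : D + 1 ≤ 2 ^ D := Nat.lt_two_pow_self
    have h2 : N ≤ 2 ^ N := Nat.lt_two_pow_self.le
    obtain ⟨M, rfl⟩ : ∃ M, N = M + 1 := ⟨N - 1, by omega⟩
    have h3 : τ + (M + 1) ≤ (D + 1) * (M + 1) := by
      have h4 : τ ≤ D * M := by simpa using hτ
      nlinarith
    calc τ + (M + 1) ≤ (D + 1) * (M + 1) := h3
      _ ≤ 2 ^ D * 2 ^ (M + 1) := Nat.mul_le_mul h1 h2
      _ = 2 ^ (D + (M + 1)) := (pow_add 2 D (M + 1)).symm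
  have hfin : N * (2 ^ N * (τ + N) ^ N * 2 ^ bits n s) ≤ 2 ^ (N * (D + N + 2) + bits n s) := by
    have h2 : N ≤ 2 ^ N := Nat.lt_two_pow_self.le
    calc N * (2 ^ N * (τ + N) ^ N * 2 ^ bits n s)
        ≤ 2 ^ N * (2 ^ N * (2 ^ (D + N)) ^ N * 2 ^ bits n s) := by
          apply Nat.mul_le_mul h2
          apply Nat.mul_le_mul_right
          apply Nat.mul_le_mul_left
          exact Nat.pow_le_pow_left hW N
      _ = 2 ^ (N * (D + N + 2) + bits n s) := by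
          rw [← pow_mul, ← pow_add, ← pow_add, ← pow_add]
          congr 1
          ring
  have h6 : |crv H (τ : ℤ) i| ≤ ((2 ^ (N * (D + N + 2) + bits n s) : ℕ) : ℤ) := by
    refine hsum.trans ?_
    exact_mod_cast hfin
  rw [← Int.natCast_natAbs] at h6
  exact_mod_cast h6

end Pool.Agent.CPT.H92
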